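import Mathlib
set_option linter.style.longLine false
namespace Pool.Agent.H.MP_37efd7_lc
open Set Filter Function Topology

/-- `[A]_α`: iterated sequential closure -/
noncomputable def scl {X : Type} [TopologicalSpace X] (A : Set X) (α : Ordinal.{0}) : Set X :=
  α.limitRecOn A (fun _ B => seqClosure B) fun β _ f => ⋃ γ : Iio β, f γ.1 γ.2

/-- the space is sequential of sequential order strictly between `1` and `ω₁` -/
def Interm (X : Type) [TopologicalSpace X] : Prop :=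
  (∀ α ≤ 1, ∃ A : Set X, scl A α ≠ closure A) ∧ ∃ α < (Ordinal.omega 1), ∀ A : Set X, scl A α = closure A

def Topz (G : Type) [Group G] : Prop :=
  ∃ _ : TopologicalSpace G, IsTopologicalGroup G ∧ T2Space G ∧ ¬ DiscreteTopology G

def Adm (G : Type) [Group G] : Prop :=
  ∃ _ : TopologicalSpace G, IsTopologicalGroup G ∧ T2Space G ∧ Interm G

def Pr {H : Type} [Group H] (a b c g : H) : Prop := (g ≠ 1 → Commute (g * a * g⁻¹) b) ∧ Commute c g

lemma step (H : Type) [Group H] : ∃ ι : H →* Equiv.Perm (H × Fin 3), Injective ι ∧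
    ∃ a b c, ¬ Commute a b ∧ c ≠ 1 ∧ ∀ g, Pr a b c (ι g) := by
  classical
  let ι : H →* Equiv.Perm (H × Fin 3) :=
    ⟨⟨fun g => Equiv.prodCongr (Equiv.mulLeft g) (Equiv.refl _), by ext <;> simp⟩, fun _ _ => by ext <;> simp [mul_assoc]⟩
  refine ⟨ι, fun g h e => by simpa [ι] using congrArg (fun f => (f (1, 0)).1) e, Equiv.swap (1, 0) (1, 1),
    Equiv.swap (1, 1) (1, 2), Equiv.prodCongr (Equiv.refl _) (Equiv.swap 0 1), fun h => ?_, fun h => ?_,
    fun g => ⟨fun h => ?_, by ext <;> simp [ι]⟩⟩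
  · simpa [Equiv.swap_apply_def] using congrArg (fun f => (f (1, 0)).2) h.eq
  · simpa using congrArg (fun f => (f (1, 0)).2) h
  · have : g ≠ 1 := fun e => h (by simp [e])
    rw [← Equiv.swap_apply_apply]
    exact (Equiv.Perm.disjoint_swap_swap (by simp [ι, this])).commute

def Γ : ℕ → GrpCat.{0}
  | 0 => .of PUnit
  | n + 1 => .of (Equiv.Perm (Γ n × Fin 3))

noncomputable def ι (n : ℕ) : Γ n →* Γ (n + 1) := (step (Γ n)).choose

noncomputable def Im : ℕ → ∀ n, Subgroup (Γ n)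
  | 0, _ => ⊤
  | _ + 1, 0 => ⊥
  | k + 1, n + 1 => (Im k n).map (ι n)

lemma anti (n : ℕ) : Antitone fun k => Im k n := by
  refine antitone_nat_of_succ_le fun k => ?_
  induction k generalizing n with
  | zero => exact le_top
  | succ k ih => cases n; exacts [le_rfl, Subgroup.map_mono (ih _)]

lemma abc (k n : ℕ) (h : k < n) : ∃ a ∈ Im k n, ∃ b ∈ Im k n, ∃ c ∈ Im k n, ¬ Commute a b ∧ c ≠ 1 ∧
    ∀ g ∈ Im (k + 1) n, Pr a b c g := by
  induction k generalizing n with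
  | zero =>
    obtain ⟨n, rfl⟩ := Nat.exists_eq_succ_of_ne_zero h.ne'
    obtain ⟨a, b, c, i, j, l⟩ := (step (Γ n)).choose_spec.2
    exact ⟨a, trivial, b, trivial, c, trivial, i, j, fun _ ⟨g, _, e⟩ => e ▸ l g⟩
  | succ k ih =>
    obtain ⟨n, rfl⟩ := Nat.exists_eq_succ_of_ne_zero (Nat.ne_zero_of_lt h)
    obtain ⟨a, a1, b, b1, c, c1, i, j, l⟩ := ih n (by omega)
    have inj : Injective (ι n) := (step (Γ n)).choose_spec.1
    refine ⟨_, ⟨a, a1, rfl⟩, _, ⟨b, b1, rfl⟩, _, ⟨c, c1, rfl⟩, fun e => i (Commute.of_map inj e),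
      fun e => j ((map_eq_one_iff _ inj).1 e), ?_⟩
    rintro _ ⟨g, g1, rfl⟩
    exact ⟨fun e => by simpa using ((l g g1).1 fun e' => e (by simp [e'])).map (ι n), (l g g1).2.map _⟩

def D : Subgroup (∀ n, Γ n) where
  carrier := {x | ∀ k, ∀ᶠ n in hyperfilter ℕ, x n ∈ Im k n}
  one_mem' _ := .of_forall fun _ => one_mem _
  mul_mem' h k i := ((h i).and (k i)).mono fun _ h => mul_mem h.1 h.2
  inv_mem' h i := (h i).mono fun _ h => inv_mem h

def N : Subgroup D where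
  carrier := {x | ∀ᶠ n in hyperfilter ℕ, x.1 n = 1}
  one_mem' := .of_forall fun _ => rfl
  mul_mem' h k := (Eventually.and h k).mono fun _ h => by simp [h.1, h.2]
  inv_mem' h := Eventually.mono h fun _ h => by simp [h]

instance : N.Normal := ⟨fun _ h _ => Eventually.mono h fun _ h => by simp [h]⟩

lemma cm {x y : D} : Commute (x : D ⧸ N) y ↔ ∀ᶠ n in hyperfilter ℕ, Commute (x.1 n) (y.1 n) := by
  rw [Commute, SemiconjBy, ← QuotientGroup.mk_mul, ← QuotientGroup.mk_mul, QuotientGroup.eq]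
  exact eventually_congr (.of_forall fun n => inv_mul_eq_one)

theorem key (g : ℕ → D ⧸ N) : ∃ a b c, ¬ Commute a b ∧ c ≠ 1 ∧ ∀ j, Pr a b c (g j) := by
  classical
  choose x hx using fun j => QuotientGroup.mk_surjective (g j)
  let P := fun n k => k < n ∧ ∀ j ≤ k, (x j).1 n ∈ Im (k + 1) n
  have hP : ∀ k, ∀ᶠ n in hyperfilter ℕ, P n k := fun k =>
    ((eventually_gt_atTop k).filter_mono Nat.hyperfilter_le_atTop).and ((eventually_all_finite (finite_Iic k)).2 fun j _ => (x j).2 _)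
  let κ := fun n => Nat.findGreatest (P n) n
  have k1 : ∀ k, ∀ᶠ n in hyperfilter ℕ, k ≤ κ n ∧ P n (κ n) := fun k => (hP k).mono fun n h =>
    ⟨Nat.le_findGreatest h.1.le h, Nat.findGreatest_spec h.1.le h⟩
  choose! a a1 b b1 c c1 i j l using fun n => abc (κ n) n
  have m : ∀ {y : ∀ n, Γ n}, (∀ n, κ n < n → y n ∈ Im (κ n) n) → y ∈ D := fun h k =>
    (k1 k).mono fun n e => anti n e.1 (h n e.2.1)
  refine ⟨(⟨a, m a1⟩ : D), (⟨b, m b1⟩ : D), (⟨c, m c1⟩ : D), fun h => ?_, fun h => ?_, fun k => ?_⟩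
  · obtain ⟨n, u, v⟩ := ((cm.1 h).and (k1 0)).exists
    exact i n v.2.1 u
  · obtain ⟨n, u, v⟩ := (Eventually.and ((QuotientGroup.eq_one_iff _).1 h) (k1 0)).exists
    exact j n v.2.1 u
  have w := (k1 k).mono fun n h => l n h.2.1 _ (h.2.2 k h.1)
  rw [← hx]
  refine ⟨fun h => ?_, cm.2 (w.mono fun n h => h.2)⟩
  have : ∀ᶠ n in hyperfilter ℕ, ¬ (x k).1 n = 1 :=
    Ultrafilter.eventually_not.2 fun e => h ((QuotientGroup.eq_one_iff (x k)).2 e)
  exact (cm (x := x k * ⟨a, m a1⟩ * (x k)⁻¹) (y := ⟨b, m b1⟩)).2 ((w.and this).mono fun n h => h.1.1 h.2)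

variable {G : Type} [Group G] (H : ∀ g : ℕ → G, ∃ a b c, ¬ Commute a b ∧ c ≠ 1 ∧ ∀ j, Pr a b c (g j))
include H

lemma topz : Topz G := by
  let B : GroupFilterBasis G :=
    { sets := {U | ∃ F : Set G, F.Finite ∧ U = Subgroup.centralizer F}
      nonempty := ⟨_, ∅, finite_empty, rfl⟩
      inter_sets := by
        rintro _ _ ⟨F, a, rfl⟩ ⟨E, b, rfl⟩
        exact ⟨_, ⟨F ∪ E, a.union b, rfl⟩, fun x h => ⟨fun g i => h g (Or.inl i), fun g i => h g (Or.inr i)⟩⟩
      one' := by rintro _ ⟨F, a, rfl⟩; exact one_mem _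
      mul' := by rintro _ ⟨F, a, rfl⟩; exact ⟨_, ⟨F, a, rfl⟩, by rintro _ ⟨x, i, y, j, rfl⟩; exact mul_mem i j⟩
      inv' := by rintro _ ⟨F, a, rfl⟩; exact ⟨_, ⟨F, a, rfl⟩, fun x i => inv_mem i⟩
      conj' := by
        rintro y _ ⟨F, a, rfl⟩
        refine ⟨_, ⟨(fun g => y⁻¹ * g * y) '' F, a.image _, rfl⟩, fun x i g j => ?_⟩
        have := i _ ⟨g, j, rfl⟩
        calc g * (y * x * y⁻¹) = y * (y⁻¹ * g * y * x) * y⁻¹ := by group
          _ = _ := by rw [this]; group }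
  let _ := B.topology
  refine ⟨_, inferInstance, (B.t2Space_iff_sInter_subset rfl).2 fun x h => by_contra fun n => ?_, fun h => ?_⟩
  · obtain ⟨a, b, c, i, -, l⟩ := H fun _ => x
    have : a * x = x * a := h _ ⟨{a}, finite_singleton _, rfl⟩ a rfl
    exact i (by simpa [← this] using (l 0).1 n)
  · obtain ⟨_, ⟨F, a, rfl⟩, k⟩ := B.nhds_one_hasBasis.mem_iff.1 ((isOpen_discrete {1}).mem_nhds rfl)
    obtain ⟨g, e⟩ := (a.countable.insert 1).exists_eq_range (insert_nonempty _ _)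
    obtain ⟨_, _, c, -, j, l⟩ := H g
    refine j (k fun y hy => ?_)
    obtain ⟨n, rfl⟩ : y ∈ range g := e ▸ Or.inr hy
    exact (l n).2.eq.symm

lemma seqc [TopologicalSpace G] [IsTopologicalGroup G] [T2Space G] {x : ℕ → G} {y : G} (h : Tendsto x atTop (𝓝 y)) :
    ∀ᶠ n in atTop, x n = y := by
  obtain ⟨a, b, c, i, -, l⟩ := H fun n => y⁻¹ * x n
  have t : Tendsto (fun n => y⁻¹ * x n) atTop (𝓝 1) := by simpa using h.const_mul y⁻¹
  have : IsOpen {g : G | g * a * g⁻¹ * b ≠ b * (g * a * g⁻¹)} := isOpen_ne_fun (by fun_prop) (by fun_prop)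
  refine (t.eventually (this.mem_nhds (by simpa [commute_iff_eq] using i))).mono fun n k => ?_
  exact (inv_mul_eq_one.1 (by_contra fun e => k ((l n).1 e))).symm

end Pool.Agent.H.MP_37efd7_lc
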